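import Pool.Agent.Helper38.MC.ADefs

/-!
# Model counts for all arities: the numerics
-/

set_option autoImplicit false

namespace Pool.Agent.Helper53.MC

open Real Filter Pool.Agent.Helper38.MC

/-- the constants -/
theorem p6_ev (r k q : ℕ) (ε : ℝ) (hr : 1 ≤ r) (hε : 0 < ε) : ∃ δ : ℝ, 0 < δ ∧
    ∀ᶠ n : ℕ in atTop, 2 ≤ n ∧ 1 ≤ (n : ℝ) ^ δ ∧ δ * (r : ℝ) ^ 2 ≤ ε / 8 ∧ δ ≤ 1 ∧
      (2 * r * (r + 1) ^ r + q * k + 1 : ℝ) ≤ (n : ℝ) ^ (ε / 8) ∧
      (r : ℝ) * (2 * ((2 * k + 2 * r : ℝ) * log (n + 1)) * n / (n : ℝ) ^ δ + 1) ≤ ε / 4 * n := by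
  have hr0 : (0 : ℝ) < r := by exact_mod_cast hr
  set δ : ℝ := min 1 (ε / (8 * (r : ℝ) ^ 2)) with hδ
  have hδ0 : 0 < δ := lt_min one_pos (by positivity)
  refine ⟨δ, hδ0, ?_⟩
  set D : ℝ := (r : ℝ) * (2 * (2 * k + 2 * r)) * (2 ^ (δ / 2) * (2 / δ)) with hD
  have e1 : ∀ᶠ n : ℕ in atTop, (2 * r * (r + 1) ^ r + q * k + 1 : ℝ) ≤ (n : ℝ) ^ (ε / 8) :=
    ((tendsto_rpow_atTop (by positivity : 0 < ε / 8)).comp
      tendsto_natCast_atTop_atTop).eventually_ge_atTop _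
  have e2 : ∀ᶠ n : ℕ in atTop, 8 * D / ε ≤ (n : ℝ) ^ (δ / 2) :=
    ((tendsto_rpow_atTop (by positivity : 0 < δ / 2)).comp
      tendsto_natCast_atTop_atTop).eventually_ge_atTop _
  have e3 : ∀ᶠ n : ℕ in atTop, 8 * r / ε ≤ (n : ℝ) :=
    tendsto_natCast_atTop_atTop.eventually_ge_atTop _
  filter_upwards [e1, e2, e3, eventually_ge_atTop 2] with n h1 h2 h3 h4
  have hn0 : (0 : ℝ) < n := by exact_mod_cast (by omega : 0 < n)
  have hn1 : (1 : ℝ) ≤ n := by exact_mod_cast (by omega : 1 ≤ n)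
  refine ⟨h4, Real.one_le_rpow hn1 hδ0.le, ?_, min_le_left _ _, h1, ?_⟩
  · have h5 : δ ≤ ε / (8 * (r : ℝ) ^ 2) := min_le_right _ _
    calc δ * (r : ℝ) ^ 2 ≤ ε / (8 * (r : ℝ) ^ 2) * (r : ℝ) ^ 2 := by gcongr
      _ = ε / 8 := by field_simp
  · have h5 : log (n + 1) ≤ 2 ^ (δ / 2) * (2 / δ) * (n : ℝ) ^ (δ / 2) := by
      calc log (n + 1) ≤ ((n : ℝ) + 1) ^ (δ / 2) / (δ / 2) :=
            Real.log_le_rpow_div (by positivity) (by positivity)
        _ ≤ (2 * (n : ℝ)) ^ (δ / 2) / (δ / 2) := by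
            gcongr
            linarith
        _ = 2 ^ (δ / 2) * (2 / δ) * (n : ℝ) ^ (δ / 2) := by
            rw [Real.mul_rpow (by norm_num) hn0.le]
            field_simp
    have h6 : (n : ℝ) ^ δ = (n : ℝ) ^ (δ / 2) * (n : ℝ) ^ (δ / 2) := by
      rw [← Real.rpow_add hn0]
      ring_nf
    have h7 : 0 < (n : ℝ) ^ (δ / 2) := by positivity
    have h8 : (r : ℝ) * (2 * ((2 * k + 2 * r : ℝ) * log (n + 1)) * n / (n : ℝ) ^ δ) ≤
        ε / 8 * n := by
      calc (r : ℝ) * (2 * ((2 * k + 2 * r : ℝ) * log (n + 1)) * n / (n : ℝ) ^ δ)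
          ≤ (r : ℝ) * (2 * ((2 * k + 2 * r : ℝ) * (2 ^ (δ / 2) * (2 / δ) * (n : ℝ) ^ (δ / 2))) * n /
            (n : ℝ) ^ δ) := by gcongr
        _ = D * n / (n : ℝ) ^ (δ / 2) := by
            rw [h6, hD]
            field_simp
        _ ≤ ε / 8 * n := by
            rw [div_le_iff₀ h7]
            rw [div_le_iff₀ hε] at h2
            nlinarith
    have h9 : (r : ℝ) ≤ ε / 8 * n := by
      rw [div_le_iff₀ hε] at h3
      linarith
    linarith

/-- P6: numerics -/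
theorem p6 : StmtP6 := by
  intro r k q ε hr hk hε
  obtain ⟨δ, hδ0, hev⟩ := p6_ev r k q ε hr hε
  filter_upwards [hev] with n ⟨hn2, hnδ, hδr, hδ1, hT, ht⟩
  have hr0 : (0 : ℝ) < r := by exact_mod_cast hr
  have hn0 : (0 : ℝ) < n := by exact_mod_cast (by omega : 0 < n)
  have hn1 : (1 : ℝ) < n := by exact_mod_cast (by omega : 1 < n)
  set l : ℕ := ⌊(n : ℝ) ^ δ⌋₊ with hl
  have hl1 : 1 ≤ l := Nat.le_floor (by simpa using hnδ)
  have hl1' : (1 : ℝ) ≤ l := by exact_mod_cast hl1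
  have hl0 : (0 : ℝ) < l := by linarith
  have hlu : (l : ℝ) ≤ (n : ℝ) ^ δ := Nat.floor_le (by positivity)
  have hll : (n : ℝ) ^ δ ≤ 2 * l := by
    have := Nat.lt_floor_add_one ((n : ℝ) ^ δ)
    rw [← hl] at this
    linarith
  set T : ℕ := 2 * (r * (r * l ^ r + 1) ^ r) + q * k + 1 with hTd
  set c : ℝ := (2 * k + 2 * r : ℝ) * log (n + 1) with hc
  have hlog : 0 < log ((n : ℝ) + 1) := Real.log_pos (by linarith)
  have hc0 : 0 < c := by positivity
  set t : ℕ := ⌊c * n / l⌋₊ + 1 with htd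
  have ht1 : c * n / l < t := by
    rw [htd]
    push_cast
    exact Nat.lt_floor_add_one _
  have ht2 : (t : ℝ) ≤ c * n / l + 1 := by
    rw [htd]
    push_cast
    have := Nat.floor_le (by positivity : 0 ≤ c * n / l)
    linarith
  refine ⟨l, T, t, hl1, by omega, by omega, by omega, ?_, ?_⟩
  · -- the number of points
    have h1 : ((n - l : ℕ) : ℝ) ≤ n * exp (-(l / n)) := by
      rcases le_total l n with h | h
      · rw [Nat.cast_sub h]
        have h2 := Real.add_one_le_exp (-(l / n : ℝ))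
        calc (n : ℝ) - l = n * (-(l / n) + 1) := by field_simp; ring
          _ ≤ n * exp (-(l / n)) := by gcongr
      · rw [Nat.sub_eq_zero_of_le h]
        simp only [Nat.cast_zero]
        positivity
    have h2 : ((n - l : ℕ) : ℝ) ^ t ≤ n ^ t * exp (-(l * t / n)) := by
      calc ((n - l : ℕ) : ℝ) ^ t ≤ (n * exp (-(l / n))) ^ t := by gcongr
        _ = n ^ t * exp (-(l * t / n)) := by
            rw [mul_pow, ← Real.exp_nat_mul]
            congr 2
            ring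
    have h3 : ((n : ℝ) + 1) ^ (2 * k + r) * (l : ℝ) ^ r ≤ exp c := by
      have h4 : (l : ℝ) ≤ n + 1 := by
        refine hlu.trans ?_
        calc (n : ℝ) ^ δ ≤ (n : ℝ) ^ (1 : ℝ) := Real.rpow_le_rpow_of_exponent_le hn1.le hδ1
          _ = n := Real.rpow_one _
          _ ≤ n + 1 := by linarith
      calc ((n : ℝ) + 1) ^ (2 * k + r) * (l : ℝ) ^ r
          ≤ ((n : ℝ) + 1) ^ (2 * k + r) * ((n : ℝ) + 1) ^ r := by gcongr
        _ = ((n : ℝ) + 1) ^ (2 * k + 2 * r) := by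
            rw [← pow_add]
            congr 1
            ring
        _ = exp c := by
            rw [hc, show (2 * k + 2 * r : ℝ) = ((2 * k + 2 * r : ℕ) : ℝ) by push_cast; ring,
              Real.exp_nat_mul, Real.exp_log (by linarith)]
    have h5 : exp c * exp (-(l * t / n)) < 1 := by
      rw [← Real.exp_add]
      rw [Real.exp_lt_one_iff]
      rw [div_lt_iff₀ hl0] at ht1
      have : c < l * t / n := by
        rw [lt_div_iff₀ hn0]
        linarith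
      linarith
    have h6 : ((n : ℝ) + 1) ^ (2 * k + r) * (l : ℝ) ^ r * ((n - l : ℕ) : ℝ) ^ t < (n : ℝ) ^ t := by
      calc ((n : ℝ) + 1) ^ (2 * k + r) * (l : ℝ) ^ r * ((n - l : ℕ) : ℝ) ^ t
          ≤ exp c * (n ^ t * exp (-(l * t / n))) := by gcongr
        _ = n ^ t * (exp c * exp (-(l * t / n))) := by ring
        _ < n ^ t * 1 := by gcongr
        _ = (n : ℝ) ^ t := mul_one _
    exact_mod_cast h6
  · intro p g hp hg
    have hT2 : (T : ℝ) ≤ (n : ℝ) ^ (ε / 4) := by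
      have h1 : (1 : ℝ) ≤ (l : ℝ) ^ r := one_le_pow₀ hl1'
      have h2 : ((r : ℝ) * l ^ r + 1) ^ r ≤ (r + 1) ^ r * (l : ℝ) ^ (r ^ 2) := by
        calc ((r : ℝ) * l ^ r + 1) ^ r ≤ ((r + 1) * (l : ℝ) ^ r) ^ r := by
              gcongr
              linarith
          _ = (r + 1) ^ r * (l : ℝ) ^ (r ^ 2) := by
              rw [mul_pow, ← pow_mul, sq]
      have h3 : (l : ℝ) ^ (r ^ 2) ≤ (n : ℝ) ^ (ε / 8) := by
        calc (l : ℝ) ^ (r ^ 2) ≤ ((n : ℝ) ^ δ) ^ (r ^ 2) := by gcongr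
          _ = (n : ℝ) ^ (δ * (r : ℝ) ^ 2) := by
              rw [← Real.rpow_natCast, ← Real.rpow_mul hn0.le]
              push_cast
              rfl
          _ ≤ (n : ℝ) ^ (ε / 8) := Real.rpow_le_rpow_of_exponent_le hn1.le hδr
      have h4 : (1 : ℝ) ≤ (l : ℝ) ^ (r ^ 2) := one_le_pow₀ hl1'
      calc (T : ℝ) = 2 * (r * ((r : ℝ) * l ^ r + 1) ^ r) + q * k + 1 := by
            rw [hTd]
            push_cast
            ring
        _ ≤ 2 * (r * ((r + 1) ^ r * (l : ℝ) ^ (r ^ 2))) + q * k + 1 := by gcongr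
        _ ≤ 2 * (r * ((r + 1) ^ r * (l : ℝ) ^ (r ^ 2))) + (q * k + 1) * (l : ℝ) ^ (r ^ 2) := by
            have : (0 : ℝ) ≤ q * k + 1 := by positivity
            nlinarith
        _ = (2 * r * (r + 1) ^ r + q * k + 1) * (l : ℝ) ^ (r ^ 2) := by ring
        _ ≤ (n : ℝ) ^ (ε / 8) * (n : ℝ) ^ (ε / 8) := by gcongr
        _ = (n : ℝ) ^ (ε / 4) := by
            rw [← Real.rpow_add hn0]
            ring_nf
    have hp2 : (p : ℝ) ≤ ε / 4 * n := by
      refine le_trans ?_ ht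
      calc (p : ℝ) ≤ ((r * t : ℕ) : ℝ) := by exact_mod_cast hp
        _ = (r : ℝ) * t := by push_cast; ring
        _ ≤ r * (c * n / l + 1) := by gcongr
        _ ≤ r * (2 * c * n / (n : ℝ) ^ δ + 1) := by
            have h0 : c * n / l ≤ 2 * c * n / (n : ℝ) ^ δ := by
              rw [div_le_div_iff₀ hl0 (by positivity)]
              have : 0 < c * n := by positivity
              nlinarith
            exact mul_le_mul_of_nonneg_left (by linarith) hr0.le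
    set B : ℝ := (n : ℝ) ^ (ε / 4 * n) * (n : ℝ) ^ (ε / 4 * n) * (n : ℝ) ^ (n / (k + 1) : ℝ) with hB
    have hB0 : 0 < B := by positivity
    have h1 : ((g : ℝ)) ^ (k + 1) ≤ B ^ (k + 1) := by
      calc ((g : ℝ)) ^ (k + 1) ≤ (n : ℝ) ^ ((k + 1) * p) * (T : ℝ) ^ ((k + 1) * n) * (n : ℝ) ^ n := by
            exact_mod_cast hg
        _ = ((n : ℝ) ^ (p : ℝ)) ^ (k + 1) * ((T : ℝ) ^ n) ^ (k + 1) *
            ((n : ℝ) ^ (n / (k + 1) : ℝ)) ^ (k + 1) := by
            have h2 : ((n : ℝ) ^ (n / (k + 1) : ℝ)) ^ (k + 1) = (n : ℝ) ^ n := by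
              rw [← Real.rpow_natCast ((n : ℝ) ^ (n / (k + 1) : ℝ)), ← Real.rpow_mul hn0.le,
                ← Real.rpow_natCast]
              congr 1
              push_cast
              field_simp
            rw [h2, Real.rpow_natCast, ← pow_mul, ← pow_mul, mul_comm p, mul_comm n]
        _ ≤ ((n : ℝ) ^ (ε / 4 * n)) ^ (k + 1) * ((n : ℝ) ^ (ε / 4 * n)) ^ (k + 1) *
            ((n : ℝ) ^ (n / (k + 1) : ℝ)) ^ (k + 1) := by
            have h3 : (T : ℝ) ^ n ≤ (n : ℝ) ^ (ε / 4 * n) := by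
              rw [Real.rpow_mul hn0.le, Real.rpow_natCast]
              gcongr
            have h4 : (n : ℝ) ^ (p : ℝ) ≤ (n : ℝ) ^ (ε / 4 * n) :=
              Real.rpow_le_rpow_of_exponent_le hn1.le hp2
            gcongr
        _ = B ^ (k + 1) := by rw [hB, mul_pow, mul_pow]
    have h2 : (g : ℝ) ≤ B := le_of_pow_le_pow_left₀ (by omega) hB0.le h1
    refine h2.trans_lt ?_
    rw [hB, ← Real.rpow_add hn0, ← Real.rpow_add hn0]
    refine Real.rpow_lt_rpow_of_exponent_lt hn1 ?_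
    have : (1 / (k + 1) + ε : ℝ) * n = n / (k + 1) + ε * n := by ring
    rw [this]
    nlinarith

end Pool.Agent.Helper53.MC
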