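import Pool.Agent.Helper6.MC.Deg

/-!
# B1: the hitting set
-/

set_option autoImplicit false

namespace Pool.Agent.Helper53.MC

open Finset Pool.Agent.Helper6.MC

/-- the greedy choice -/
theorem greedy {M ι : Type} [Fintype M] [DecidableEq M] (B : Finset ι) (S : ι → Finset M) (L : ℕ) (hL : 1 ≤ L)
    (h : ∀ i ∈ B, L ≤ (S i).card) (t : ℕ) : ∃ P : Finset M, P.card ≤ t ∧
      (B.filter fun i => Disjoint P (S i)).card * Fintype.card M ^ t ≤ B.card * (Fintype.card M - L) ^ t := by
  classical
  induction t with
  | zero =>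
    refine ⟨∅, le_rfl, ?_⟩
    rw [pow_zero, pow_zero]
    exact Nat.mul_le_mul_right _ (card_le_card (filter_subset _ _))
  | succ t ih =>
    obtain ⟨P, hP, hU⟩ := ih
    set n := Fintype.card M with hn
    set U := B.filter fun i => Disjoint P (S i) with hUd
    have hav : ∃ P' : Finset M, P'.card ≤ t + 1 ∧ (B.filter fun i => Disjoint P' (S i)).card * n ≤ U.card * (n - L) := by
      by_cases hU0 : U = ∅
      · refine ⟨P, hP.trans (Nat.le_succ t), ?_⟩
        rw [← hUd, hU0]
        simp
      · obtain ⟨i0, hi0⟩ := nonempty_iff_ne_empty.2 hU0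
        have hLn : L ≤ n := (h i0 (mem_filter.1 hi0).1).trans (card_le_univ _)
        have h1 : ∃ p : M, U.card * L ≤ (U.filter fun i => p ∈ S i).card * n := by
          by_contra hcon
          push Not at hcon
          have h2 : ∑ p : M, (U.filter fun i => p ∈ S i).card * n < ∑ _p : M, U.card * L := by
            refine sum_lt_sum_of_nonempty ?_ (fun p _ => hcon p)
            rw [univ_nonempty_iff, ← Fintype.card_pos_iff]
            omega
          have h3 : ∑ p : M, (U.filter fun i => p ∈ S i).card = ∑ i ∈ U, (S i).card := by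
            simp only [card_filter]
            rw [sum_comm]
            refine sum_congr rfl fun i _ => ?_
            rw [← card_filter]
            congr 1
            ext p
            simp
          have h4 : U.card * L ≤ ∑ i ∈ U, (S i).card := by
            rw [← smul_eq_mul, ← sum_const]
            exact sum_le_sum fun i hi => h i (mem_filter.1 hi).1
          rw [← sum_mul, h3, sum_const, card_univ, ← hn, smul_eq_mul] at h2
          have h5 := Nat.mul_le_mul_left n h4
          have h6 : n * ∑ i ∈ U, (S i).card = (∑ i ∈ U, (S i).card) * n := mul_comm _ _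
          omega
        obtain ⟨p, hp⟩ := h1
        refine ⟨insert p P, (card_insert_le _ _).trans (Nat.succ_le_succ hP), ?_⟩
        have h2 : (B.filter fun i => Disjoint (insert p P) (S i)) = U.filter fun i => p ∉ S i := by
          ext i
          rw [mem_filter, mem_filter, hUd, mem_filter, disjoint_insert_left]
          tauto
        have h3 : (U.filter fun i => p ∈ S i).card + (U.filter fun i => p ∉ S i).card = U.card :=
          card_filter_add_card_filter_not (fun i => p ∈ S i)
        rw [h2]
        have h4 : (U.filter fun i => p ∈ S i).card * n + (U.filter fun i => p ∉ S i).card * n = U.card * n := by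
          rw [← add_mul, h3]
        have h5 : U.card * (n - L) + U.card * L = U.card * n := by
          rw [← mul_add, Nat.sub_add_cancel hLn]
        omega
    obtain ⟨P', hP', h'⟩ := hav
    refine ⟨P', hP', ?_⟩
    calc (B.filter fun i => Disjoint P' (S i)).card * n ^ (t + 1)
        = ((B.filter fun i => Disjoint P' (S i)).card * n) * n ^ t := by ring
      _ ≤ (U.card * (n - L)) * n ^ t := Nat.mul_le_mul_right _ h'
      _ = (U.card * n ^ t) * (n - L) := by ring
      _ ≤ (B.card * (n - L) ^ t) * (n - L) := Nat.mul_le_mul_right _ hU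
      _ = B.card * (n - L) ^ (t + 1) := by ring

theorem bern (a L u : ℕ) : a ^ (u + 1) + (u + 1) * a ^ u * L ≤ (a + L) ^ (u + 1) := by
  induction u with
  | zero => simp
  | succ u ih =>
    calc a ^ (u + 1 + 1) + (u + 1 + 1) * a ^ (u + 1) * L
        ≤ (a ^ (u + 1) + (u + 1) * a ^ u * L) * (a + L) := by
          have : (a ^ (u + 1) + (u + 1) * a ^ u * L) * (a + L) =
            a ^ (u + 1 + 1) + (u + 1 + 1) * a ^ (u + 1) * L + (u + 1) * a ^ u * L * L := by ring
          omega
      _ ≤ (a + L) ^ (u + 1) * (a + L) := Nat.mul_le_mul_right _ ih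
      _ = (a + L) ^ (u + 1 + 1) := by ring

theorem halve {n L u : ℕ} (hn : 1 ≤ n) (h : n ≤ u * L) : (n - L) ^ u * 2 ≤ n ^ u := by
  obtain ⟨v, rfl⟩ : ∃ v, u = v + 1 := ⟨u - 1, by
    rcases Nat.eq_zero_or_pos u with h0 | h0
    · rw [h0, zero_mul] at h
      omega
    · omega⟩
  by_cases hL : L ≤ n
  · obtain ⟨a, rfl⟩ : ∃ a, n = a + L := ⟨n - L, by omega⟩
    rw [Nat.add_sub_cancel]
    have h1 := bern a L v
    have h2 : a ^ (v + 1) ≤ (v + 1) * a ^ v * L := by
      calc a ^ (v + 1) = a ^ v * a := pow_succ _ _
        _ ≤ a ^ v * ((v + 1) * L) := Nat.mul_le_mul_left _ (by omega)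
        _ = (v + 1) * a ^ v * L := by ring
    omega
  · rw [Nat.sub_eq_zero_of_le (by omega), zero_pow (Nat.succ_ne_zero v), zero_mul]
    exact Nat.zero_le _

/-- **B1**: a small hitting set -/
theorem hitSet {M Col : Type} [Fintype M] [DecidableEq M] [DecidableEq Col] (c : M → M → Col) {L : ℕ} (hL : 1 ≤ L) :
    ∃ P : Finset M, Hit c P L ∧ P.card * L ≤ (Fintype.card M + L) * (2 * Nat.log 2 (Fintype.card M) + 2) := by
  classical
  set n := Fintype.card M with hn
  rcases Nat.eq_zero_or_pos n with h0 | h0
  · have : IsEmpty M := Fintype.card_eq_zero_iff.1 (hn ▸ h0)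
    exact ⟨∅, fun x => this.elim x, by simp⟩
  · obtain ⟨P, hP, hU⟩ := greedy ((univ : Finset (M × M)).filter fun p => L < (Df c p.1 p.2).card)
      (fun p => Df c p.1 p.2) L hL (fun p hp => (mem_filter.1 hp).2.le) ((n / L + 1) * (2 * Nat.log 2 n + 2))
    rw [← hn] at hU
    set s := 2 * Nat.log 2 n + 2 with hs
    set u := n / L + 1 with hu
    set B := (univ : Finset (M × M)).filter fun p => L < (Df c p.1 p.2).card with hB
    have huL : n ≤ u * L := by
      have := Nat.lt_mul_div_succ n (show 0 < L by omega)
      rw [mul_comm] at this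
      exact this.le
    have huL' : u * L ≤ n + L := by
      rw [hu, add_mul, one_mul]
      exact Nat.add_le_add_right (Nat.div_mul_le_self n L) L
    have hBc : B.card < 2 ^ s := by
      have h1 : B.card ≤ n * n := by
        refine (card_le_univ _).trans ?_
        rw [Fintype.card_prod]
      have h2 : n < 2 ^ (Nat.log 2 n + 1) := Nat.lt_pow_succ_log_self (by norm_num) n
      calc B.card ≤ n * n := h1
        _ < 2 ^ (Nat.log 2 n + 1) * 2 ^ (Nat.log 2 n + 1) := Nat.mul_lt_mul'' h2 h2
        _ = 2 ^ s := by rw [← pow_add, hs]; ring_nf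
    have h3 : (n - L) ^ (u * s) * 2 ^ s ≤ n ^ (u * s) := by
      rw [pow_mul, pow_mul, ← mul_pow]
      exact Nat.pow_le_pow_left (halve h0 huL) s
    have h4 : (B.filter fun i => Disjoint P (Df c i.1 i.2)).card = 0 := by
      by_contra hne
      have h5 : 1 ≤ (B.filter fun i => Disjoint P (Df c i.1 i.2)).card := Nat.one_le_iff_ne_zero.2 hne
      have h6 : n ^ (u * s) * 2 ^ s ≤ B.card * n ^ (u * s) := by
        calc n ^ (u * s) * 2 ^ s ≤ ((B.filter fun i => Disjoint P (Df c i.1 i.2)).card * n ^ (u * s)) * 2 ^ s := by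
              refine Nat.mul_le_mul_right _ ?_
              exact Nat.le_mul_of_pos_left _ h5
          _ ≤ (B.card * (n - L) ^ (u * s)) * 2 ^ s := Nat.mul_le_mul_right _ hU
          _ = B.card * ((n - L) ^ (u * s) * 2 ^ s) := by ring
          _ ≤ B.card * n ^ (u * s) := Nat.mul_le_mul_left _ h3
      have h7 : 0 < n ^ (u * s) := Nat.pow_pos h0
      have h8 : B.card * n ^ (u * s) < 2 ^ s * n ^ (u * s) := Nat.mul_lt_mul_of_pos_right hBc h7
      rw [mul_comm (2 ^ s)] at h8
      omega
    refine ⟨P, fun x y hxy => ?_, ?_⟩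
    · by_contra hcon
      push Not at hcon
      have h5 : (x, y) ∈ B.filter fun i => Disjoint P (Df c i.1 i.2) := by
        rw [mem_filter, hB, mem_filter]
        refine ⟨⟨mem_univ _, hcon⟩, ?_⟩
        rw [disjoint_left]
        intro p hp hp'
        exact (mem_Df.1 hp') (hxy p hp)
      rw [card_eq_zero] at h4
      rw [h4] at h5
      exact absurd h5 (notMem_empty _)
    · calc P.card * L ≤ (u * s) * L := Nat.mul_le_mul_right _ hP
        _ = (u * L) * s := by ring
        _ ≤ (n + L) * s := Nat.mul_le_mul_right _ huL'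

end Pool.Agent.Helper53.MC
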