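import Pool.Agent.Helper53.MC.NumE
import Pool.Agent.Helper53.MC.Hit
import Pool.Agent.Helper6.MC.Fam

/-!
# Many automorphisms give a homogeneous family
-/

set_option autoImplicit false

namespace Pool.Agent.Helper53.MC

open Filter Pool.Agent.Helper6.MC

/-- many automorphisms give a homogeneous family of blocks of size at most `k` -/
theorem fam_of (k q : ℕ) (ε : ℝ) (hε : 0 < ε) : ∀ᶠ n : ℕ in atTop, ∀ (M Col : Type) [Fintype M] [DecidableEq M]
    [DecidableEq Col] (c : M → M → Col), Flip c → Fintype.card M = n →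
    (n : ℝ) ^ ((1 / ((k : ℝ) + 1) + ε) * n) ≤ (Nat.card {g : Equiv.Perm M // IsAut c g} : ℝ) →
    ∃ t, 1 ≤ t ∧ t ≤ k ∧ Fam c t q := by
  classical
  filter_upwards [numE k q ε hε] with n hn M Col _ _ _ c hc hM hG
  obtain ⟨L, hL, h⟩ := hn
  obtain ⟨P, hP, hPL⟩ := hitSet c hL
  rw [hM] at hPL
  have hfin : Fintype {g : Equiv.Perm M // IsAut c g} := Fintype.ofFinite _
  rcases homOrCount (c := c) hc (k := k) (q := q) hL P hP with h1 | h1
  · exact h1
  · exfalso
    rw [hM] at h1
    have h2 := h P.card (Nat.card {g : Equiv.Perm M // IsAut c g}) hPL (by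
      rw [Nat.card_eq_fintype_card]
      refine h1.trans (le_of_eq ?_)
      ring)
    linarith

end Pool.Agent.Helper53.MC
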