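import Mathlib

/-!
# B1: the numerics of the count of automorphisms
-/

set_option autoImplicit false

namespace Pool.Agent.Helper53.MC

open Filter Asymptotics

/-- the logarithm of the bound -/
theorem log_bd {n p m q L : ℕ} (hn : 1 ≤ n) (hq : 1 ≤ q) (hL : 1 ≤ L) :
    Real.log ((n ^ p * (4 * L) ^ n * n ^ m * q ^ n * (2 * L) ^ n : ℕ) : ℝ) =
      (p + m) * Real.log n + n * (Real.log 8 + 2 * Real.log L + Real.log q) := by
  have h1 : (n : ℝ) ≠ 0 := by positivity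
  have h2 : (L : ℝ) ≠ 0 := by positivity
  have h3 : (q : ℝ) ≠ 0 := by positivity
  have h8 : Real.log 8 = Real.log 4 + Real.log 2 := by
    rw [← Real.log_mul (by norm_num) (by norm_num)]
    norm_num
  push_cast
  rw [Real.log_mul (by positivity) (by positivity), Real.log_mul (by positivity) (by positivity),
    Real.log_mul (by positivity) (by positivity), Real.log_mul (by positivity) (by positivity), Real.log_pow,
    Real.log_pow, Real.log_pow, Real.log_pow, Real.log_pow, Real.log_mul (by norm_num) h2,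
    Real.log_mul (by norm_num) h2, h8]
  ring

theorem log_fac {n : ℕ} (hn : 1 ≤ n) : n * Real.log n - n ≤ Real.log (n.factorial : ℝ) := by
  have h1 : (0 : ℝ) < n := by exact_mod_cast hn
  have h2 := Real.pow_div_factorial_le_exp (n : ℝ) h1.le n
  have h3 : (0 : ℝ) < (n.factorial : ℝ) := by exact_mod_cast n.factorial_pos
  rw [div_le_iff₀ h3] at h2
  have h4 := Real.log_le_log (by positivity) h2
  rw [Real.log_pow, Real.log_mul (Real.exp_ne_zero _) h3.ne', Real.log_exp] at h4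
  linarith

theorem log2_le {n : ℕ} (hn : 1 ≤ n) : (Nat.log 2 n : ℝ) ≤ 2 * Real.log n := by
  have h1 : 2 ^ Nat.log 2 n ≤ n := Nat.pow_log_le_self 2 (by omega)
  have h2 : ((2 : ℝ) ^ Nat.log 2 n) ≤ n := by exact_mod_cast h1
  have h3 := Real.log_le_log (by positivity) h2
  rw [Real.log_pow] at h3
  have h4 := Real.log_two_gt_d9
  have h5 : (0 : ℝ) ≤ Nat.log 2 n := Nat.cast_nonneg _
  nlinarith

/-- **B1, numerics** -/
theorem num (k q : ℕ) (hk : 1 ≤ k) (hq : 1 ≤ q) : ∃ n₀ : ℕ, ∀ n : ℕ, n₀ ≤ n → ∃ L : ℕ, 1 ≤ L ∧ ∀ p N g : ℕ,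
    p * L ≤ (n + L) * (2 * Nat.log 2 n + 2) → N ^ k ≤ n ^ ((k - 1) * n) →
    g ≤ n ^ p * (4 * L) ^ n * n ^ (n / (k + 1)) * (q * k) ^ n * (2 * L) ^ n → N * g < n.factorial := by
  obtain ⟨K, hK⟩ : ∃ K : ℝ, K = k * (k + 1) := ⟨_, rfl⟩
  have hk0 : (0 : ℝ) < k := by exact_mod_cast hk
  have hk1 : (1 : ℝ) ≤ k := by exact_mod_cast hk
  have hK1 : 1 ≤ K := by rw [hK]; nlinarith
  have hK0 : 0 < K := by linarith
  obtain ⟨δ, hδ⟩ : ∃ δ : ℝ, δ = 1 / (8 * K) := ⟨_, rfl⟩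
  have hδ0 : 0 < δ := by rw [hδ]; positivity
  have hδ1 : δ ≤ 1 := by
    rw [hδ, div_le_one (by positivity)]
    linarith
  obtain ⟨A, hA⟩ : ∃ A : ℝ, A = Real.log 8 + Real.log ((q * k : ℕ) : ℝ) + 1 := ⟨_, rfl⟩
  have E1 : ∀ᶠ x : ℝ in atTop, 4 * K * A < Real.log x := Real.tendsto_log_atTop.eventually_gt_atTop _
  have E2 : ∀ᶠ x : ℝ in atTop, 1 ≤ Real.log x := Real.tendsto_log_atTop.eventually_ge_atTop _
  have E3 : ∀ᶠ x : ℝ in atTop, 2 ≤ x ^ δ := (tendsto_rpow_atTop hδ0).eventually_ge_atTop _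
  have E4 : ∀ᶠ x : ℝ in atTop, ‖Real.log x‖ ≤ 1 / (96 * K) * ‖x ^ δ‖ :=
    (isLittleO_log_rpow_atTop hδ0).bound (by positivity)
  have E := tendsto_natCast_atTop_atTop.eventually
    ((E1.and E2).and ((E3.and E4).and (eventually_ge_atTop (1 : ℝ))))
  obtain ⟨n₀, hn₀⟩ := eventually_atTop.1 E
  refine ⟨n₀, fun n hn => ?_⟩
  obtain ⟨⟨e1, e2⟩, ⟨e3, e4⟩, e5⟩ := hn₀ n hn
  have hn1 : 1 ≤ n := by exact_mod_cast e5
  have hn0 : (0 : ℝ) < n := by linarith
  obtain ⟨l, hl⟩ : ∃ l : ℝ, l = Real.log n := ⟨_, rfl⟩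
  rw [← hl] at e1 e2 e4
  obtain ⟨X, hX⟩ : ∃ X : ℝ, X = (n : ℝ) ^ δ := ⟨_, rfl⟩
  rw [← hX] at e3 e4
  rw [Real.norm_of_nonneg (by linarith), Real.norm_of_nonneg (by linarith)] at e4
  have hXn : X ≤ n := by
    rw [hX]
    calc (n : ℝ) ^ δ ≤ (n : ℝ) ^ (1 : ℝ) := Real.rpow_le_rpow_of_exponent_le e5 hδ1
      _ = n := Real.rpow_one _
  have hL1 : (⌊X⌋₊ : ℝ) ≤ X := Nat.floor_le (by linarith)
  have hL2 : X < ⌊X⌋₊ + 1 := Nat.lt_floor_add_one X
  have hL3 : X / 2 ≤ ⌊X⌋₊ := by linarith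
  have hL : 1 ≤ ⌊X⌋₊ := Nat.le_floor (by push_cast; linarith)
  refine ⟨⌊X⌋₊, hL, fun p N g h1 h2 h3 => ?_⟩
  generalize ⌊X⌋₊ = L at *
  have hL0 : (0 : ℝ) < L := by exact_mod_cast hL
  have hlogL : Real.log L ≤ δ * l := by
    calc Real.log L ≤ Real.log X := Real.log_le_log hL0 hL1
      _ = δ * l := by rw [hX, Real.log_rpow hn0, hl]
  -- the size of `p`
  have hp : (p : ℝ) ≤ n / (4 * K) := by
    have f1 : (p : ℝ) * L ≤ (n + L) * (2 * Nat.log 2 n + 2) := by exact_mod_cast h1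
    have f2 := log2_le hn1
    rw [← hl] at f2
    have f3 : (p : ℝ) * L ≤ (2 * n) * (6 * l) := by
      refine f1.trans (mul_le_mul ?_ ?_ (by positivity) (by positivity))
      · linarith
      · linarith
    have f4 : (p : ℝ) * (X / 2) ≤ (2 * n) * (6 * l) := (mul_le_mul_of_nonneg_left hL3 (Nat.cast_nonneg _)).trans f3
    have f5 : (2 * n) * (6 * l) ≤ n / (8 * K) * X := by
      have : (n : ℝ) * l ≤ n * (1 / (96 * K) * X) := mul_le_mul_of_nonneg_left e4 hn0.le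
      calc (2 * n) * (6 * l) = 12 * (n * l) := by ring
        _ ≤ 12 * (n * (1 / (96 * K) * X)) := by linarith
        _ = n / (8 * K) * X := by field_simp; ring
    have f6 : (p : ℝ) * X ≤ n / (4 * K) * X := by
      have : n / (4 * K) * X = 2 * (n / (8 * K) * X) := by field_simp; ring
      linarith
    exact le_of_mul_le_mul_right f6 (by linarith)
  by_contra hcon
  push Not at hcon
  have hf := n.factorial_pos
  have hN : 1 ≤ N := by
    rcases Nat.eq_zero_or_pos N with h | h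
    · rw [h, zero_mul] at hcon
      omega
    · exact h
  have hg : 1 ≤ g := by
    rcases Nat.eq_zero_or_pos g with h | h
    · rw [h, mul_zero] at hcon
      omega
    · exact h
  have hN0 : (0 : ℝ) < N := by exact_mod_cast hN
  have hg0 : (0 : ℝ) < g := by exact_mod_cast hg
  have c1 : Real.log (n.factorial : ℝ) ≤ Real.log N + Real.log g := by
    rw [← Real.log_mul hN0.ne' hg0.ne']
    refine Real.log_le_log (by exact_mod_cast hf) ?_
    exact_mod_cast hcon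
  have c2 : k * Real.log N ≤ (k - 1) * n * l := by
    have f1 : ((N : ℝ) ^ k) ≤ (n : ℝ) ^ ((k - 1) * n) := by exact_mod_cast h2
    have f2 := Real.log_le_log (by positivity) f1
    rw [Real.log_pow, Real.log_pow, ← hl] at f2
    push_cast [Nat.cast_sub hk] at f2
    exact f2
  have c3 : Real.log g ≤ (p + (n / (k + 1) : ℕ)) * l + n * (Real.log 8 + 2 * Real.log L +
      Real.log ((q * k : ℕ) : ℝ)) := by
    have f1 : (g : ℝ) ≤ ((n ^ p * (4 * L) ^ n * n ^ (n / (k + 1)) * (q * k) ^ n * (2 * L) ^ n : ℕ) : ℝ) := by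
      exact_mod_cast h3
    refine (Real.log_le_log hg0 f1).trans (le_of_eq ?_)
    rw [log_bd hn1 (Nat.mul_pos hq hk) hL, hl]
  have c4 : ((n / (k + 1) : ℕ) : ℝ) ≤ n / (k + 1) := by
    have := Nat.cast_div_le (α := ℝ) (m := n) (n := k + 1)
    push_cast at this
    exact this
  have c5 := log_fac hn1
  rw [← hl] at c5
  have c6 : Real.log N ≤ (k - 1) / k * n * l := by
    rw [div_mul_eq_mul_div, div_mul_eq_mul_div, le_div_iff₀ hk0]
    linarith
  have c7 : (p + (n / (k + 1) : ℕ)) * l ≤ (n / (4 * K) + n / (k + 1)) * l :=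
    mul_le_mul_of_nonneg_right (add_le_add hp c4) (by linarith)
  have c8 : (n : ℝ) * (Real.log 8 + 2 * Real.log L + Real.log ((q * k : ℕ) : ℝ)) ≤ n * (A - 1 + 2 * (δ * l)) := by
    refine mul_le_mul_of_nonneg_left ?_ hn0.le
    rw [hA]
    linarith
  have c9 : (k - 1) / k * n * l + (n / (4 * K) + n / (k + 1)) * l + n * (A - 1 + 2 * (δ * l)) =
      n * l - n * l / (2 * K) + n * (A - 1) := by
    rw [hδ, hK]
    field_simp
    ring
  have c10 : n * A < n * l / (2 * K) := by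
    rw [lt_div_iff₀ (by positivity)]
    have : (n : ℝ) * (4 * K * A) < n * l := mul_lt_mul_of_pos_left e1 hn0
    have hnl : 0 ≤ (n : ℝ) * l := by positivity
    nlinarith
  linarith

end Pool.Agent.Helper53.MC
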