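import Pool.Agent.Helper53.MC.Num

/-!
# Numerics, real exponents
-/

set_option autoImplicit false

namespace Pool.Agent.Helper53.MC

open Filter Asymptotics

/-- numerics of the staircase -/
theorem numE (k q : ℕ) (ε : ℝ) (hε : 0 < ε) : ∀ᶠ n : ℕ in Filter.atTop, ∃ L : ℕ, 1 ≤ L ∧ ∀ p g : ℕ,
    p * L ≤ (n + L) * (2 * Nat.log 2 n + 2) →
    g ≤ n ^ p * (4 * L) ^ n * n ^ (n / (k + 1)) * (q * k + 1) ^ n * (2 * L) ^ n →
    (g : ℝ) < (n : ℝ) ^ ((1 / (k + 1) + ε) * n) := by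
  obtain ⟨δ, hδ⟩ : ∃ δ : ℝ, δ = min (ε / 8) 1 := ⟨_, rfl⟩
  have hδ0 : 0 < δ := by rw [hδ]; positivity
  have hδ1 : δ ≤ 1 := by rw [hδ]; exact min_le_right _ _
  have hδ2 : δ ≤ ε / 8 := by rw [hδ]; exact min_le_left _ _
  obtain ⟨A, hA⟩ : ∃ A : ℝ, A = Real.log 8 + Real.log ((q * k + 1 : ℕ) : ℝ) := ⟨_, rfl⟩
  have E1 : ∀ᶠ x : ℝ in atTop, 2 / ε * A < Real.log x := Real.tendsto_log_atTop.eventually_gt_atTop _
  have E2 : ∀ᶠ x : ℝ in atTop, 1 ≤ Real.log x := Real.tendsto_log_atTop.eventually_ge_atTop _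
  have E3 : ∀ᶠ x : ℝ in atTop, 2 ≤ x ^ δ := (tendsto_rpow_atTop hδ0).eventually_ge_atTop _
  have E4 : ∀ᶠ x : ℝ in atTop, ‖Real.log x‖ ≤ ε / 96 * ‖x ^ δ‖ :=
    (isLittleO_log_rpow_atTop hδ0).bound (by positivity)
  have E := tendsto_natCast_atTop_atTop.eventually
    ((E1.and E2).and ((E3.and E4).and (eventually_ge_atTop (1 : ℝ))))
  filter_upwards [E] with n hn
  obtain ⟨⟨e1, e2⟩, ⟨e3, e4⟩, e5⟩ := hn
  have hn1 : 1 ≤ n := by exact_mod_cast e5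
  have hn0 : (0 : ℝ) < n := by linarith
  obtain ⟨l, hl⟩ : ∃ l : ℝ, l = Real.log n := ⟨_, rfl⟩
  rw [← hl] at e1 e2 e4
  obtain ⟨X, hX⟩ : ∃ X : ℝ, X = (n : ℝ) ^ δ := ⟨_, rfl⟩
  rw [← hX] at e3 e4
  rw [Real.norm_of_nonneg (by linarith), Real.norm_of_nonneg (by linarith)] at e4
  have hXn : X ≤ n := by
    rw [hX]
    calc (n : ℝ) ^ δ ≤ (n : ℝ) ^ (1 : ℝ) := Real.rpow_le_rpow_of_exponent_le e5 hδ1
      _ = n := Real.rpow_one _
  have hL1 : (⌊X⌋₊ : ℝ) ≤ X := Nat.floor_le (by linarith)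
  have hL2 : X < ⌊X⌋₊ + 1 := Nat.lt_floor_add_one X
  have hL3 : X / 2 ≤ ⌊X⌋₊ := by linarith
  have hL : 1 ≤ ⌊X⌋₊ := Nat.le_floor (by push_cast; linarith)
  refine ⟨⌊X⌋₊, hL, fun p g h1 h3 => ?_⟩
  generalize ⌊X⌋₊ = L at *
  have hL0 : (0 : ℝ) < L := by exact_mod_cast hL
  have hlogL : Real.log L ≤ δ * l := by
    calc Real.log L ≤ Real.log X := Real.log_le_log hL0 hL1
      _ = δ * l := by rw [hX, Real.log_rpow hn0, hl]
  -- the size of `p`
  have hp : (p : ℝ) ≤ ε / 4 * n := by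
    have f1 : (p : ℝ) * L ≤ (n + L) * (2 * Nat.log 2 n + 2) := by exact_mod_cast h1
    have f2 := log2_le hn1
    rw [← hl] at f2
    have f3 : (p : ℝ) * L ≤ (2 * n) * (6 * l) := by
      refine f1.trans (mul_le_mul ?_ ?_ (by positivity) (by positivity))
      · linarith
      · linarith
    have f4 : (p : ℝ) * (X / 2) ≤ (2 * n) * (6 * l) := (mul_le_mul_of_nonneg_left hL3 (Nat.cast_nonneg _)).trans f3
    have f5 : (n : ℝ) * l ≤ n * (ε / 96 * X) := mul_le_mul_of_nonneg_left e4 hn0.le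
    have f6 : (p : ℝ) * X ≤ ε / 4 * n * X := by nlinarith
    exact le_of_mul_le_mul_right f6 (by linarith)
  rcases Nat.eq_zero_or_pos g with h0 | h0
  · rw [h0, Nat.cast_zero]
    exact Real.rpow_pos_of_pos hn0 _
  have hg0 : (0 : ℝ) < g := by exact_mod_cast h0
  rw [← Real.log_lt_log_iff hg0 (Real.rpow_pos_of_pos hn0 _), Real.log_rpow hn0, ← hl]
  have c3 : Real.log g ≤ (p + (n / (k + 1) : ℕ)) * l + n * (Real.log 8 + 2 * Real.log L +
      Real.log ((q * k + 1 : ℕ) : ℝ)) := by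
    have f1 : (g : ℝ) ≤ ((n ^ p * (4 * L) ^ n * n ^ (n / (k + 1)) * (q * k + 1) ^ n * (2 * L) ^ n : ℕ) : ℝ) := by
      exact_mod_cast h3
    refine (Real.log_le_log hg0 f1).trans (le_of_eq ?_)
    rw [log_bd hn1 (Nat.succ_pos _) hL, hl]
  have c4 : ((n / (k + 1) : ℕ) : ℝ) ≤ n / (k + 1) := by
    have := Nat.cast_div_le (α := ℝ) (m := n) (n := k + 1)
    push_cast at this
    exact this
  have c7 : (p + (n / (k + 1) : ℕ)) * l ≤ (ε / 4 * n + n / (k + 1)) * l :=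
    mul_le_mul_of_nonneg_right (add_le_add hp c4) (by linarith)
  have c8 : (n : ℝ) * (Real.log 8 + 2 * Real.log L + Real.log ((q * k + 1 : ℕ) : ℝ)) ≤ n * (A + ε / 4 * l) := by
    refine mul_le_mul_of_nonneg_left ?_ hn0.le
    have : δ * l ≤ ε / 8 * l := mul_le_mul_of_nonneg_right hδ2 (by linarith)
    rw [hA]
    linarith
  have c10 : n * A < ε / 2 * (n * l) := by
    have h : 2 / ε * A * (ε / 2) < l * (ε / 2) := mul_lt_mul_of_pos_right e1 (by positivity)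
    have h' : 2 / ε * A * (ε / 2) = A := by field_simp
    rw [h'] at h
    have := mul_lt_mul_of_pos_left h hn0
    linarith
  have c11 : (1 / ((k : ℝ) + 1) + ε) * n * l = n / (k + 1) * l + ε * (n * l) := by ring
  have c12 : 0 < (n : ℝ) * l := by positivity
  rw [c11]
  have c13 : (ε / 4 * n + n / (k + 1)) * l = ε / 4 * (n * l) + n / (k + 1) * l := by ring
  have c14 : n * (A + ε / 4 * l) = n * A + ε / 4 * (n * l) := by ring
  linarith

end Pool.Agent.Helper53.MC
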